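import Pool.Agent.U174.AK.Stm

/-!
# Project AK, package ROOT (helper94): roots near a pseudolimit (Kaplansky)
-/

set_option autoImplicit false

namespace Pool.Agent.U94.AK.ROOT

open Pool.Agent.U174.AK
open IsLocalRing Polynomial Filter

section
variable {K : Type} [Field K] {O : ValuationSubring K} {E : Subfield K} {x : K}

lemma ev_and {p q : K → Prop} (hp : Ev O E x p) (hq : Ev O E x q) : Ev O E x fun a => p a ∧ q a := by
  obtain ⟨a, ha, h1⟩ := hp
  obtain ⟨b, hb, h2⟩ := hq
  rcases le_total (O.valuation (x - a)) (O.valuation (x - b)) with h | h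
  · exact ⟨a, ha, fun c hc hle => ⟨h1 c hc hle, h2 c hc (hle.trans h)⟩⟩
  · exact ⟨b, hb, fun c hc hle => ⟨h1 c hc (hle.trans h), h2 c hc hle⟩⟩

lemma ev_mono {p q : K → Prop} (hp : Ev O E x p) (h : ∀ a ∈ E, p a → q a) : Ev O E x q := by
  obtain ⟨a, ha, h1⟩ := hp
  exact ⟨a, ha, fun c hc hle => h c hc (h1 c hc hle)⟩

lemma ev_true {p : K → Prop} (h : ∀ a, p a) : Ev O E x p := ⟨0, E.zero_mem, fun a _ _ => h a⟩

lemma charZero_of_res (O : ValuationSubring K) (hO : CharZero (ResidueField O)) : CharZero K := by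
  refine ⟨fun m n h => ?_⟩
  have h1 : ((m : O) : K) = ((n : O) : K) := by
    push_cast
    exact h
  have h2 : (m : O) = n := Subtype.ext h1
  have h3 := congrArg (residue O) h2
  rw [map_natCast, map_natCast] at h3
  exact_mod_cast h3

lemma val_nat (O : ValuationSubring K) (hO : CharZero (ResidueField O)) {n : ℕ} (hn : n ≠ 0) :
    O.valuation (n : K) = 1 := by
  have h : IsUnit (n : O) := by
    rw [← residue_ne_zero_iff_isUnit, map_natCast]
    exact_mod_cast hn
  have h2 := (ValuationSubring.valuation_eq_one_iff O (n : O)).1 h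
  simpa using h2

/-- the Taylor coefficients of the derivative -/
lemma taylor_deriv (q : K[X]) (i : ℕ) :
    (taylor x (derivative q)).coeff i = (taylor x q).coeff (i + 1) * ((i + 1 : ℕ) : K) := by
  have h : taylor x (derivative q) = derivative (taylor x q) := by
    rw [taylor_apply, taylor_apply, derivative_comp]
    simp
  rw [h, coeff_derivative]
  push_cast
  rfl

/-- a polynomial which vanishes at all elements of `E` near `x` is zero -/
lemma eq_zero_of_ev (hx : NoBest O E x) {r : K[X]} (h : Ev O E x fun a => r.eval a = 0) : r = 0 := by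
  classical
  by_contra hr
  obtain ⟨a₀, ha₀, h1⟩ := h
  set s : Finset K := r.roots.toFinset.filter (fun a => a ∈ E ∧ O.valuation (x - a) ≤ O.valuation (x - a₀)) with hs
  have hmem : ∀ a ∈ E, O.valuation (x - a) ≤ O.valuation (x - a₀) → a ∈ s := by
    intro a ha hle
    rw [hs, Finset.mem_filter, Multiset.mem_toFinset, mem_roots hr]
    exact ⟨h1 a ha hle, ha, hle⟩
  obtain ⟨b, hb, hmin⟩ := Finset.exists_min_image s (fun a => O.valuation (x - a)) ⟨a₀, hmem a₀ ha₀ le_rfl⟩
  have hb' := (Finset.mem_filter.1 hb).2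
  obtain ⟨c, hc, hlt⟩ := hx b hb'.1
  exact absurd (hmin c (hmem c hc (hlt.le.trans hb'.2))) (not_le.2 hlt)

end

theorem t_ROOT : S_HEN → S_DOM → S_TAY → S_ROOT := by
  intro hHEN hDOM hTAY K _ O hO hchar E x hx Q hQ hmin hnon
  have hK : CharZero K := charZero_of_res O hchar
  set v := O.valuation with hv
  set q : K[X] := Q.map E.subtype with hq
  have hev : ∀ a, Q.eval₂ E.subtype a = q.eval a := fun a => by rw [hq, eval_map]
  simp only [hev] at hnon ⊢
  -- the degree is positive
  have hdeg : Q.natDegree ≠ 0 := by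
    intro h0
    rw [natDegree_eq_zero] at h0
    obtain ⟨c, rfl⟩ := h0
    refine hnon ⟨v (c : K), ev_true fun a => ?_⟩
    rw [hq]
    simp
  have hE : CharZero E := ⟨fun m n h => by
    have := congrArg (fun t : E => (t : K)) h
    simpa using this⟩
  have hQ' : derivative Q ≠ 0 := fun h => hdeg (derivative_eq_zero.1 h)
  have hq' : derivative q = (derivative Q).map E.subtype := by rw [hq, derivative_map]
  have hq'0 : derivative q ≠ 0 := by
    rw [hq']
    exact (Polynomial.map_ne_zero_iff E.subtype.injective).2 hQ'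
  -- the value of the derivative is constant near `x`
  obtain ⟨δ, hδ⟩ := hmin (derivative Q) hQ' (natDegree_derivative_lt hdeg)
  have hδ' : Ev O E x fun a => v ((derivative q).eval a) = δ := by
    refine ev_mono hδ fun a _ h => ?_
    rw [hq', eval_map]
    exact h
  have hc : Ev O E x fun a => v ((derivative q).eval a) = v ((derivative q).eval x) := by
    rcases hTAY K O E x hx (derivative q) with h | h
    · exact h.2
    · exfalso
      obtain ⟨a, ha, h1⟩ := ev_and hδ' h
      obtain ⟨a', ha', hlt⟩ := hx a ha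
      have h2 := h1 a ha le_rfl
      have h3 := h1 a' ha' hlt.le
      have h4 := h2.2.2 a' ha' hlt
      rw [← hv, h2.1, h3.1] at h4
      exact lt_irrefl _ h4
  set T := taylor x q with hT
  have hT1 : T.coeff 1 = (derivative q).eval x := by rw [hT, taylor_coeff_one]
  -- the first coefficient is not zero
  have hne : T.coeff 1 ≠ 0 := by
    rw [hT1]
    intro h0
    refine hq'0 (eq_zero_of_ev hx (ev_mono hc fun a _ h => ?_))
    rw [h0, map_zero] at h
    exact (Valuation.zero_iff v).1 h
  set β := v (T.coeff 1) with hβ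
  have hβ0 : 0 < β := zero_lt_iff.2 ((Valuation.ne_zero_iff v).2 hne)
  -- the other coefficients
  have hco : Ev O E x fun a => ∀ i, 2 ≤ i → v (T.coeff i) * v (x - a) ^ (i - 1) ≤ β := by
    have key : Ev O E x fun a => ∀ i, 1 ≤ i →
        v ((taylor x (derivative q)).coeff i) * v (x - a) ^ i ≤ β := by
      rcases hDOM K O E x hx (derivative q) with h | ⟨h, h1, -, h3⟩
      · refine ev_true fun a i hi => ?_
        rw [h i hi, map_zero, zero_mul]
        exact hβ0.le
      · refine ev_mono (ev_and h3 hc) fun a _ h4 i hi => ?_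
        obtain ⟨⟨h5, h6⟩, h7⟩ := h4
        have h8 : v ((derivative q).eval a - (derivative q).eval x) ≤ β := by
          refine (Valuation.map_sub v _ _).trans ?_
          rw [h7, max_self, hβ, hT1]
        rw [← hv] at h5 h6
        rcases eq_or_ne i h with rfl | hih
        · rw [← h5]
          exact h8
        · refine (h6 i hi hih).le.trans ?_
          rw [← h5]
          exact h8
    refine ev_mono key fun a _ h i hi => ?_
    have h1 := h (i - 1) (by omega)
    rw [taylor_deriv, map_mul, val_nat O hchar (Nat.succ_ne_zero _), mul_one, Nat.sub_add_cancel (by omega)] at h1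
    exact h1
  -- the value at `x`
  have hval : Ev O E x fun a => v (q.eval x) < β * v (x - a) := by
    have h2 : Ev O E x fun a => v (q.eval x) < v (q.eval a) := by
      rcases hTAY K O E x hx q with h | h
      · exact absurd h.1 hnon
      · exact ev_mono h fun a _ h => h.1
    rcases hDOM K O E x hx q with h | ⟨h, h1, -, h3⟩
    · exact absurd (h 1 le_rfl) hne
    · refine ev_mono (ev_and (ev_and h3 h2) hco) fun a _ h4 => ?_
      obtain ⟨⟨⟨h5, -⟩, h6⟩, h7⟩ := h4
      rw [← hv, ← hT] at h5
      have h8 : v (q.eval a - q.eval x) = v (q.eval a) := Valuation.map_sub_eq_of_lt_left v h6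
      rw [← h8, h5] at h6
      refine lt_of_lt_of_le h6 ?_
      rcases Nat.lt_or_ge 1 h with hh | hh
      · have h9 := h7 h hh
        calc v (T.coeff h) * v (x - a) ^ h = v (T.coeff h) * v (x - a) ^ (h - 1) * v (x - a) := by
              rw [mul_assoc, ← pow_succ, Nat.sub_add_cancel (by omega)]
          _ ≤ β * v (x - a) := mul_le_mul_left h9 _
      · obtain rfl : h = 1 := by omega
        rw [pow_one]
  -- Hensel's lemma
  obtain ⟨a₀, ha₀, hall⟩ := ev_and hco hval
  obtain ⟨h1, h2⟩ := hall a₀ ha₀ le_rfl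
  set c := x - a₀ with hcdef
  have hc0 : c ≠ 0 := by
    intro h0
    obtain ⟨a', -, hlt⟩ := hx a₀ ha₀
    rw [← hcdef, h0, map_zero] at hlt
    exact absurd hlt not_lt_zero
  have hvc : v c ≠ 0 := (Valuation.ne_zero_iff v).2 hc0
  set p : K[X] := C (T.coeff 1 * c)⁻¹ * T.comp (C c * X) with hp
  have hpc : ∀ i, p.coeff i = (T.coeff 1 * c)⁻¹ * (T.coeff i * c ^ i) := by
    intro i
    rw [hp, coeff_C_mul, comp_C_mul_X_coeff]
  have hpv : ∀ i, v (p.coeff i) = (β * v c)⁻¹ * (v (T.coeff i) * v c ^ i) := by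
    intro i
    rw [hpc, map_mul, map_inv₀, map_mul, map_mul, map_pow]
  have hβc : β * v c ≠ 0 := mul_ne_zero hβ0.ne' hvc
  have hβc0 : 0 < β * v c := zero_lt_iff.2 hβc
  have hT0 : T.coeff 0 = q.eval x := by rw [hT, taylor_coeff_zero]
  have hp0 : v (p.coeff 0) = (β * v c)⁻¹ * v (q.eval x) := by
    rw [hpv, pow_zero, mul_one, hT0]
  have hlt : v (p.coeff 0) < 1 := by
    rw [hp0, inv_mul_lt_iff₀ hβc0, mul_one]
    exact h2
  have h1v : v (p.coeff 1) = 1 := by
    rw [hpv, pow_one, ← hβ, inv_mul_cancel₀ hβc]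
  have hle : ∀ i, v (p.coeff i) ≤ 1 := by
    intro i
    rcases Nat.lt_or_ge 1 i with hi | hi
    · rw [hpv, inv_mul_le_iff₀ hβc0, mul_one]
      calc v (T.coeff i) * v c ^ i = v (T.coeff i) * v c ^ (i - 1) * v c := by
            rw [mul_assoc, ← pow_succ, Nat.sub_add_cancel (by omega)]
        _ ≤ β * v c := mul_le_mul_left (h1 i hi) _
    · rcases Nat.eq_zero_or_pos i with rfl | hi0
      · exact hlt.le
      · obtain rfl : i = 1 := by omega
        exact h1v.le
  obtain ⟨y, hy, hyv⟩ := hHEN K O hO p hlt h1v hle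
  refine ⟨x + c * y, ?_, fun a ha => ?_⟩
  · rw [hp, eval_mul, eval_C, eval_comp] at hy
    rw [mul_eq_zero] at hy
    rcases hy with hy | hy
    · exact absurd hy (inv_ne_zero (mul_ne_zero hne hc0))
    · rw [hT, taylor_eval] at hy
      simpa [add_comm] using hy
  · have hz : v (x + c * y - x) = β⁻¹ * v (q.eval x) := by
      rw [add_sub_cancel_left, map_mul, ← hv] at *
      rw [hyv, hp0, mul_inv]
      field_simp
    have hcl : ∀ b ∈ E, v (x - b) ≤ v c → v (x + c * y - x) < v (x - b) := by
      intro b hb hbl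
      rw [hz, inv_mul_lt_iff₀ hβ0]
      exact (hall b hb hbl).2
    rcases le_total (v (x - a)) (v c) with h | h
    · exact hcl a ha h
    · exact lt_of_lt_of_le (hcl a₀ ha₀ le_rfl) h

end Pool.Agent.U94.AK.ROOT
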